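import Pool.Agent.L7h67.WB.Stm
import Pool.Agent.L7h22.WA.Gm
import Pool.Agent.L7h22.WA.Maint

/-!
# Project WB: the Gaussian mean value (S_GMB) and the last variable (S_GIL)
-/

set_option autoImplicit false

namespace Pool.Agent.L7h97.WB

open Finset MeasureTheory Polynomial Filter Topology
open Pool.Agent.L7h67.WA (gs WS WI GI GS Dio bx)
open Pool.Agent.L7h67.WB
open Pool.Agent.L7h22.WA (pow_exp gs_le_one)

theorem s_GMB : S_GMB := by
  classical
  intro k α X G₀ G B hB hMV ε hε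
  obtain ⟨δ, hδ, h1⟩ := hMV (ε / 2) (by positivity)
  have hP : Tendsto (fun l : ℕ => (2 : ℝ) ^ l) atTop atTop :=
    tendsto_pow_atTop_atTop_of_one_lt one_lt_two
  have h2 : ∀ᶠ x : ℝ in atTop, x ^ ((k : ℝ) - ε / 2) *
      Real.exp (-(Real.pi / 4 * x ^ (2 * δ))) ≤ 1 :=
    (pow_exp ((k : ℝ) - ε / 2) (2 * δ) (Real.pi / 4) (by positivity)
      (by positivity)).eventually_le_const one_pos
  have h3 : ∀ᶠ x : ℝ in atTop, 4 * |B| ≤ x ^ δ :=
    (tendsto_rpow_atTop hδ).eventually_ge_atTop _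
  have h4 : ∀ᶠ x : ℝ in atTop, 2 ≤ x ^ (ε / 2) :=
    (tendsto_rpow_atTop (by positivity)).eventually_ge_atTop _
  filter_upwards [h1, hP.eventually h2, hP.eventually h3, hP.eventually h4] with l e1 e2 e3 e4
  set P : ℝ := (2 : ℝ) ^ l with hPdef
  have hP1 : 1 ≤ P := one_le_pow₀ (by norm_num)
  have hP0 : 0 < P := by linarith
  set L : ℝ := P ^ δ with hL
  have hfar : ∀ p : α × α, L < |G₀ p.1 - G₀ p.2| →
      gs 1 (G p.1 - G p.2) ≤ Real.exp (-(Real.pi / 4 * P ^ (2 * δ))) := by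
    intro p hp
    have h5 := hB p.1
    have h6 := hB p.2
    have hBB := le_abs_self B
    set s := G p.1 - G p.2 with hs'
    have h7 : |G₀ p.1 - G₀ p.2| ≤ |s| + 2 * |B| := by
      have h8 : G₀ p.1 - G₀ p.2 = s - (G p.1 - G₀ p.1) + (G p.2 - G₀ p.2) := by
        rw [hs']
        ring
      rw [h8]
      refine (abs_add_le _ _).trans ?_
      have h9 := abs_sub s (G p.1 - G₀ p.1)
      linarith
    have h8 : L / 2 ≤ |s| := by linarith
    unfold gs
    apply Real.exp_le_exp.2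
    rw [neg_le_neg_iff]
    have h9 : P ^ (2 * δ) = L ^ 2 := by
      rw [hL, ← Real.rpow_natCast, ← Real.rpow_mul hP0.le]
      congr 1
      push_cast
      ring
    rw [h9]
    have h10 : (L / 2) ^ 2 ≤ s ^ 2 := by
      rw [← sq_abs s]
      apply pow_le_pow_left₀ _ h8
      rw [hL]
      positivity
    have hpi := Real.pi_pos
    rw [one_pow, div_one]
    nlinarith
  rw [← Finset.sum_product']
  have h5 : ∑ p ∈ X l ×ˢ X l, gs 1 (G p.1 - G p.2) ≤
      ∑ p ∈ X l ×ˢ X l, ((if |G₀ p.1 - G₀ p.2| ≤ L then (1 : ℝ) else 0) +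
        Real.exp (-(Real.pi / 4 * P ^ (2 * δ)))) := by
    apply Finset.sum_le_sum
    intro p _
    by_cases hp : |G₀ p.1 - G₀ p.2| ≤ L
    · rw [if_pos hp]
      have := gs_le_one 1 (G p.1 - G p.2)
      have := Real.exp_pos (-(Real.pi / 4 * P ^ (2 * δ)))
      linarith
    · rw [if_neg hp, zero_add]
      exact hfar p (not_le.1 hp)
  refine h5.trans ?_
  rw [Finset.sum_add_distrib, Finset.sum_const, nsmul_eq_mul, Finset.card_product]
  have h6 : ∑ p ∈ X l ×ˢ X l, (if |G₀ p.1 - G₀ p.2| ≤ L then (1 : ℝ) else 0) =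
      (#((X l ×ˢ X l).filter fun p => |G₀ p.1 - G₀ p.2| ≤ L) : ℝ) := by
    rw [Finset.sum_ite, Finset.sum_const_zero, add_zero, Finset.sum_const, nsmul_eq_mul, mul_one]
  rw [h6]
  have h7 := e1 ((X l ×ˢ X l).filter fun p => |G₀ p.1 - G₀ p.2| ≤ L) (Finset.filter_subset _ _)
    (fun p hp => (Finset.mem_filter.1 hp).2)
  have h8 : Real.exp (-(Real.pi / 4 * P ^ (2 * δ))) ≤ P ^ (-(k : ℝ) + ε / 2) := by
    have h9 : P ^ (-(k : ℝ) + ε / 2) = (P ^ ((k : ℝ) - ε / 2))⁻¹ := by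
      rw [← Real.rpow_neg hP0.le]
      congr 1
      ring
    rw [h9, ← one_div, le_div_iff₀ (by positivity), mul_comm]
    exact e2
  have h10 : P ^ (-(k : ℝ) + ε) = P ^ (-(k : ℝ) + ε / 2) * P ^ (ε / 2) := by
    rw [← Real.rpow_add hP0]
    congr 1
    ring
  have hX0 : (0 : ℝ) ≤ (#(X l) : ℝ) ^ 2 := by positivity
  have h11 : ((#(X l) * #(X l) : ℕ) : ℝ) * Real.exp (-(Real.pi / 4 * P ^ (2 * δ))) ≤
      (#(X l) : ℝ) ^ 2 * P ^ (-(k : ℝ) + ε / 2) := by
    push_cast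
    rw [← sq]
    exact mul_le_mul_of_nonneg_left h8 hX0
  have h12 : 0 ≤ (#(X l) : ℝ) ^ 2 * P ^ (-(k : ℝ) + ε / 2) := by positivity
  rw [h10, ← mul_assoc]
  nlinarith

theorem s_GIL : S_GIL := by
  classical
  intro k F0 a0 hk hF0 hl ha0
  obtain ⟨c, hc, h⟩ := Pool.Agent.L7h22.WA.s_MAINT (Fin 0) k (fun i => i.elim0) F0
    (fun i => i.elim0) a0 hk (fun i => i.elim0) hF0 hl (fun i => i.elim0) ha0
  refine ⟨c, hc, ?_⟩
  filter_upwards [h] with P hP w hw hw1 τ hτ1 hτ2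
  have h1 := hP w hw hw1 τ (by simpa using hτ1) (by simpa using hτ2) id (fun t => by simp)
  have h2 : bx (fun i : Fin 0 => (i.elim0 : ℕ)) P = {fun i => i.elim0} := by
    ext x
    rw [Finset.mem_singleton]
    constructor
    · intro _
      funext i
      exact i.elim0
    · intro _
      unfold bx
      rw [Fintype.mem_piFinset]
      intro i
      exact i.elim0
  rw [h2, Finset.sum_singleton] at h1
  simpa using h1

end Pool.Agent.L7h97.WB
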